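import Mathlib
import Pool.Graph.R_seed8.H315R3.ETC.Defs
import Pool.Graph.R_seed8.H315R3.ETC.Basic
import Pool.Graph.R_seed8.TH673.VG.CritDefs

/-! Quaternionic structures with a subgroup `C` such that value groups of elements outside of `C`
have at most four elements: local analysis. -/

set_option autoImplicit false

namespace Pool.Agent.H923.ET

open Pool.Agent.H315R3.ETC Pool.Agent.TH673.VG

variable {S : QData} (h : IsQuat S)

include h

lemma sy {a b : S.G} (e : S.q a b = S.zero) : S.q b a = S.zero := by rw [h.qs2]; exact e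

lemma ml {a b c : S.G} (h1 : S.q a c = S.zero) (h2 : S.q b c = S.zero) :
    S.q (a * b) c = S.zero := sy h (p_mul h (sy h h1) (sy h h2))

lemma one_q (a : S.G) : S.q 1 a = S.zero := sy h (q_one h a)

lemma sq_mul (a b : S.G) : a * (a * b) = b := by rw [← mul_assoc, h.exp2, one_mul]

lemma inv_eq (a : S.G) : a⁻¹ = a := by
  rw [inv_eq_iff_mul_eq_one]
  exact h.exp2 a

/-- equality in the second argument -/
lemma eqr {a b c : S.G} : S.q a b = S.q a c ↔ S.q a (b * c) = S.zero := h.qs3 a b c

/-- equality in the first argument -/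
lemma eql {a b c : S.G} : S.q a c = S.q b c ↔ S.q (a * b) c = S.zero := by
  rw [h.qs2 a c, h.qs2 b c, h.qs3, h.qs2]

/-- the linkage axiom -/
lemma lk {a b c d : S.G} (e : S.q a b = S.q c d) :
    ∃ z, S.q a (b * z) = S.zero ∧ S.q c (d * z) = S.zero ∧ S.q (a * c) z = S.zero := by
  obtain ⟨z, h1, h2⟩ := h.qs4 a b c d e
  exact ⟨z, (h.qs3 _ _ _).1 h1, (h.qs3 _ _ _).1 h2, (eql h).1 (by rw [← h1, ← h2, e])⟩

/-- `-a` is orthogonal to `a` -/
lemma qneg (a : S.G) : S.q a (S.neg * a) = S.zero := h.qs1 a

lemma eq_of_mul' {a b : S.G} (e : a * b = 1) : a = b := eq_of_mul h a b e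

omit h in
lemma mem_D (h : IsQuat S) {a b : S.G} : b ∈ D h a ↔ S.q a b = S.zero := Iff.rfl

section four

variable [Finite S.G]

/-- a group with at most four elements which contains `1, a, b, ab` -/
lemma four {a u v : S.G} (h4 : Nat.card (D h a) ≤ 4) (hu : S.q a u = S.zero)
    (hv : S.q a v = S.zero) (hu1 : u ≠ 1) (hv1 : v ≠ 1) (huv : u ≠ v) {z : S.G}
    (hz : S.q a z = S.zero) : z = 1 ∨ z = u ∨ z = v ∨ z = u * v := by
  classical
  by_contra hcon
  push Not at hcon
  obtain ⟨c1, c2, c3, c4⟩ := hcon
  have huv' : u * v ≠ 1 := fun e => huv (eq_of_mul' h e)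
  have c5 : u * v ≠ u := fun e => hv1 (by simpa using e)
  have c6 : u * v ≠ v := fun e => hu1 (by simpa using e)
  let s : Finset S.G := {1, u, v, u * v, z}
  have hs : s.card = 5 := by
    simp only [s]
    rw [Finset.card_insert_of_notMem, Finset.card_insert_of_notMem,
      Finset.card_insert_of_notMem, Finset.card_insert_of_notMem, Finset.card_singleton]
    · simpa using fun e => c4 e.symm
    · simp only [Finset.mem_insert, Finset.mem_singleton, not_or]
      exact ⟨fun e => c6 e.symm, fun e => c3 e.symm⟩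
    · simp only [Finset.mem_insert, Finset.mem_singleton, not_or]
      exact ⟨huv, fun e => c5 e.symm, fun e => c2 e.symm⟩
    · simp only [Finset.mem_insert, Finset.mem_singleton, not_or]
      exact ⟨fun e => hu1 e.symm, fun e => hv1 e.symm, fun e => huv' e.symm, fun e => c1 e.symm⟩
  have hsub : (s : Set S.G) ⊆ (D h a : Set S.G) := by
    intro y hy
    simp only [s, Finset.coe_insert, Finset.coe_singleton, Set.mem_insert_iff,
      Set.mem_singleton_iff] at hy
    show S.q a y = S.zero
    rcases hy with rfl | rfl | rfl | rfl | rfl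
    · exact q_one h a
    · exact hu
    · exact hv
    · exact p_mul h hu hv
    · exact hz
  have h1 := Set.ncard_le_ncard hsub (Set.toFinite _)
  rw [Set.ncard_coe_finset, hs] at h1
  have h2 : (D h a : Set S.G).ncard = Nat.card (D h a) := rfl
  omega

end four

end Pool.Agent.H923.ET
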