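import Mathlib
import Pool.Agent.H923.ET.Basic

/-! Quaternionic structures with a subgroup `C` such that value groups of elements outside of `C`
have at most four elements: counting. -/

set_option autoImplicit false

namespace Pool.Agent.H923.ET

open Pool.Agent.H315R3.ETC Pool.Agent.TH673.VG

variable {S : QData} (h : IsQuat S)

/-- half of the elements of `A` are outside of `C` -/
lemma half {G : Type} [Group G] [Finite G] (A C : Subgroup G) (hAC : ¬ A ≤ C) :
    Nat.card A ≤ 2 * {a : G | a ∈ A ∧ a ∉ C}.ncard := by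
  obtain ⟨e, he, heC⟩ := SetLike.not_le_iff_exists.1 hAC
  have h1 : {a : G | a ∈ A ∧ a ∈ C}.ncard ≤ {a : G | a ∈ A ∧ a ∉ C}.ncard := by
    refine Set.ncard_le_ncard_of_injOn (fun a => a * e) ?_ ?_ (Set.toFinite _)
    · rintro a ⟨ha, haC⟩
      exact ⟨A.mul_mem ha he, fun hc => heC ((C.mul_mem_cancel_left haC).1 hc)⟩
    · intro a _ b _ hab
      exact mul_right_cancel hab
  have h2 : {a : G | a ∈ A ∧ a ∈ C}.ncard + {a : G | a ∈ A ∧ a ∉ C}.ncard = Nat.card A := by
    rw [← Set.ncard_union_eq _ (Set.toFinite _) (Set.toFinite _)]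
    · have : {a : G | a ∈ A ∧ a ∈ C} ∪ {a : G | a ∈ A ∧ a ∉ C} = (A : Set G) := by
        ext a
        simp only [Set.mem_union, Set.mem_ofPred_eq, SetLike.mem_coe]
        tauto
      rw [this]
      rfl
    · rw [Set.disjoint_left]
      rintro a ⟨_, h3⟩ ⟨_, h4⟩
      exact h4 h3
  omega

/-- a subgroup contains an element outside of a smaller set -/
lemma exists_gen {G : Type} [Group G] [Finite G] (A : Subgroup G) (B : Set G)
    (hB : B.ncard < Nat.card A) : ∃ v ∈ A, v ∉ B := by
  by_contra hcon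
  push Not at hcon
  have := Set.ncard_le_ncard (s := (A : Set G)) (t := B) (fun v hv => hcon v hv) (Set.toFinite _)
  have e : (A : Set G).ncard = Nat.card A := rfl
  omega

/-- the setting: `C` consists of the elements with value groups of index at most `M`, the other
value groups have at most four elements -/
structure Ctx0 (h : IsQuat S) (C : Subgroup S.G) (M : ℕ) : Prop where
  mem : ∀ a, a ∈ C ↔ (D h a).index ≤ M
  sm : ∀ a, a ∉ C → Nat.card (D h a) ≤ 4
  ne : C ≠ ⊤
  M2 : 2 ≤ M
  big : 16 * M ^ 5 < Nat.card S.G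

/-- the elements of `C` whose value group is not contained in `C` -/
def X (h : IsQuat S) (C : Subgroup S.G) : Set S.G := {c | c ∈ C ∧ ¬ D h c ≤ C}

variable {h} {C : Subgroup S.G} {M : ℕ} [Finite S.G]

theorem Xcard (H : Ctx0 h C M) : (X h C).ncard ≤ 8 * M := by
  classical
  have : Fintype S.G := Fintype.ofFinite _
  let Xf : Finset S.G := Finset.univ.filter (fun c => c ∈ X h C)
  have hXf : (X h C).ncard = Xf.card := by
    rw [← Set.ncard_coe_finset]
    congr 1
    ext c
    simp [Xf]
  let r : S.G → S.G → Prop := fun c a => a ∉ C ∧ S.q c a = S.zero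
  have hsum := Finset.sum_card_bipartiteAbove_eq_sum_card_bipartiteBelow (s := Xf)
    (t := Finset.univ) r
  have h1 : ∀ a : S.G, (Xf.bipartiteBelow r a).card ≤ 4 := by
    intro a
    by_cases ha : a ∈ C
    · have : Xf.bipartiteBelow r a = ∅ := by
        rw [Finset.eq_empty_iff_forall_notMem]
        intro c hc
        rw [Finset.mem_bipartiteBelow] at hc
        exact hc.2.1 ha
      rw [this]
      simp
    · refine le_trans ?_ (H.sm a ha)
      have e : Nat.card (D h a) = (D h a : Set S.G).ncard := rfl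
      rw [e, ← Set.ncard_coe_finset]
      refine Set.ncard_le_ncard ?_ (Set.toFinite _)
      intro c hc
      rw [Finset.mem_coe, Finset.mem_bipartiteBelow] at hc
      exact sy h hc.2.2
  have h2 : ∀ c ∈ Xf, Fintype.card S.G ≤ 2 * M * (Finset.univ.bipartiteAbove r c).card := by
    intro c hc
    have hc' : c ∈ X h C := by simpa [Xf] using hc
    have h3 := half (D h c) C hc'.2
    have h4 : {a : S.G | a ∈ D h c ∧ a ∉ C}.ncard = (Finset.univ.bipartiteAbove r c).card := by
      rw [← Set.ncard_coe_finset]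
      congr 1
      ext a
      rw [Finset.mem_coe, Finset.mem_bipartiteAbove]
      constructor
      · rintro ⟨h5, h6⟩
        exact ⟨Finset.mem_univ _, h6, h5⟩
      · rintro ⟨_, h6, h5⟩
        exact ⟨h5, h6⟩
    rw [h4] at h3
    have h5 := (D h c).card_mul_index
    have h6 := (H.mem c).1 hc'.1
    rw [← Nat.card_eq_fintype_card, ← h5]
    calc Nat.card (D h c) * (D h c).index
        ≤ (2 * (Finset.univ.bipartiteAbove r c).card) * M := Nat.mul_le_mul h3 h6
      _ = 2 * M * (Finset.univ.bipartiteAbove r c).card := by ring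
  have h3 : Xf.card * Fintype.card S.G ≤ 2 * M * (4 * Fintype.card S.G) := by
    calc Xf.card * Fintype.card S.G = ∑ c ∈ Xf, Fintype.card S.G := by
          rw [Finset.sum_const, smul_eq_mul]
      _ ≤ ∑ c ∈ Xf, 2 * M * (Finset.univ.bipartiteAbove r c).card := Finset.sum_le_sum h2
      _ = 2 * M * ∑ a, (Xf.bipartiteBelow r a).card := by
          rw [← Finset.mul_sum, hsum]
      _ ≤ 2 * M * ∑ _a : S.G, 4 := Nat.mul_le_mul_left _ (Finset.sum_le_sum fun a _ => h1 a)
      _ = 2 * M * (4 * Fintype.card S.G) := by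
          rw [Finset.sum_const, smul_eq_mul, Finset.card_univ]
          ring
  have h4 : 0 < Fintype.card S.G := Fintype.card_pos
  rw [hXf]
  have h5 : Xf.card * Fintype.card S.G ≤ (8 * M) * Fintype.card S.G := by
    refine h3.trans (le_of_eq ?_)
    ring
  exact Nat.le_of_mul_le_mul_right h5 h4

lemma ncard_shift (B : Set S.G) (c : S.G) : {v : S.G | v * c ∈ B}.ncard ≤ B.ncard := by
  refine Set.ncard_le_ncard_of_injOn (fun v => v * c) (fun v hv => hv) ?_ (Set.toFinite _)
  intro a _ b _ hab
  exact mul_right_cancel hab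

/-- genericity, one translate -/
theorem gen2 (H : Ctx0 h C M) (A : Subgroup S.G) (hA : A ≤ C) (hc : 16 * M < Nat.card A)
    {c : S.G} (hcC : c ∈ C) : ∃ v ∈ A, D h v ≤ C ∧ D h (v * c) ≤ C := by
  obtain ⟨v, hv, hvn⟩ := exists_gen A (X h C ∪ {v : S.G | v * c ∈ X h C}) (by
    have h1 := Xcard H
    have h2 := ncard_shift (X h C) c
    have h3 := Set.ncard_union_le (X h C) {v : S.G | v * c ∈ X h C}
    omega)
  rw [Set.mem_union, not_or] at hvn
  refine ⟨v, hv, ?_, ?_⟩
  · by_contra hcon
    exact hvn.1 ⟨hA hv, hcon⟩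
  · by_contra hcon
    exact hvn.2 ⟨C.mul_mem (hA hv) hcC, hcon⟩

/-- genericity, all translates by `X` -/
theorem genX (H : Ctx0 h C M) (hc : 64 * M ^ 2 < Nat.card C) :
    ∃ v ∈ C, D h v ≤ C ∧ ∀ x ∈ X h C, D h (v * x) ≤ C := by
  classical
  have : Fintype S.G := Fintype.ofFinite _
  let Xf : Finset S.G := Finset.univ.filter (fun c => c ∈ X h C)
  have hXf : (X h C).ncard = Xf.card := by
    rw [← Set.ncard_coe_finset]
    congr 1
    ext c
    simp [Xf]
  let B : Finset S.G := (Xf ×ˢ Xf).image (fun p => p.1 * p.2)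
  have hB : B.card ≤ 64 * M ^ 2 := by
    refine Finset.card_image_le.trans ?_
    rw [Finset.card_product, ← hXf]
    have := Xcard H
    calc (X h C).ncard * (X h C).ncard ≤ (8 * M) * (8 * M) := Nat.mul_le_mul this this
      _ = 64 * M ^ 2 := by ring
  obtain ⟨v, hv, hvn⟩ := exists_gen C (B : Set S.G) (by
    rw [Set.ncard_coe_finset]
    omega)
  have key : ∀ x ∈ X h C, v * x ∉ X h C := by
    intro x hx hvx
    apply hvn
    rw [Finset.mem_coe, Finset.mem_image]
    refine ⟨(v * x, x), ?_, mul_cancel h v x⟩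
    simp only [Finset.mem_product, Xf, Finset.mem_filter, Finset.mem_univ, true_and]
    exact ⟨hvx, hx⟩
  have h1X : (1 : S.G) ∈ X h C := by
    refine ⟨C.one_mem, fun hle => H.ne (eq_top_iff.2 fun x _ => hle ?_)⟩
    exact one_q h x
  refine ⟨v, hv, ?_, fun x hx => ?_⟩
  · by_contra hcon
    exact key 1 h1X (by rw [mul_one]; exact ⟨hv, hcon⟩)
  · by_contra hcon
    exact key x hx ⟨C.mul_mem hv hx.1, hcon⟩

/-- the size of an intersection -/
lemma card_inf (A B : Subgroup S.G) (a b : ℕ) (hA : A.index ≤ a) (hB : B.index ≤ b) :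
    (A ⊓ B).index ≤ a * b :=
  Subgroup.index_inf_le.trans (Nat.mul_le_mul hA hB)

omit [Finite S.G] in
lemma card_gt (A : Subgroup S.G) (m n : ℕ) (hA : A.index ≤ m) (hG : n * m < Nat.card S.G) :
    n < Nat.card A := by
  by_contra hcon
  push Not at hcon
  have h1 := A.card_mul_index
  have h2 : Nat.card A * A.index ≤ n * m := Nat.mul_le_mul hcon hA
  omega

end Pool.Agent.H923.ET
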