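import Mathlib
import Pool.Agent.H923.ET.Count
import Pool.Graph.R_seed8.HP778.QS.Almost
import Pool.Graph.R_pool_sql_team_seeded_5cf16337.K3h83.ET.One

/-! Quaternionic structures with at least `256` elements whose value groups have order at most four
or index at most four. -/

set_option autoImplicit false
set_option linter.unusedSimpArgs false
set_option linter.unusedSectionVars false

namespace Pool.Agent.H923.ET

open Pool.Agent.H315R3.ETC Pool.Agent.TH673.VG

variable {S : QData} (h : IsQuat S) {M : ℕ} [Finite S.G]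

/-- the elements whose value groups have index at most `M` -/
def large (M : ℕ) (hM : 1 ≤ M) (hG : 4 * (M * M) < Nat.card S.G)
    (hd : ∀ a : S.G, Nat.card (D h a) ≤ 4 ∨ (D h a).index ≤ M) : Subgroup S.G where
  carrier := {a | (D h a).index ≤ M}
  one_mem' := by
    show (D h 1).index ≤ M
    have : D h (1 : S.G) = ⊤ := le_antisymm le_top fun x _ => one_q h x
    rw [this, Subgroup.index_top]
    exact hM
  mul_mem' := by
    intro a b ha hb
    have ha' : (D h a).index ≤ M := ha
    have hb' : (D h b).index ≤ M := hb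
    show (D h (a * b)).index ≤ M
    refine (hd (a * b)).resolve_left fun hcon => ?_
    have h1 := card_gt _ _ 4 (card_inf _ _ _ _ ha' hb') hG
    have h2 : Nat.card (D h a ⊓ D h b : Subgroup S.G) ≤ Nat.card (D h (a * b)) :=
      Subgroup.card_le_of_le (fun x hx => ml h hx.1 hx.2)
    omega
  inv_mem' := by
    intro a ha
    rw [inv_eq h]
    exact ha

/-- the group generated by `C` and `-1` -/
def pm (C : Subgroup S.G) : Subgroup S.G where
  carrier := {a | a ∈ C ∨ S.neg * a ∈ C}
  one_mem' := Or.inl C.one_mem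
  mul_mem' := by
    rintro a b (ha | ha) (hb | hb)
    · exact Or.inl (C.mul_mem ha hb)
    · right
      rw [mul_left_comm]
      exact C.mul_mem ha hb
    · right
      rw [← mul_assoc]
      exact C.mul_mem ha hb
    · left
      have := C.mul_mem ha hb
      have e : S.neg * a * (S.neg * b) = a * b := by
        simp only [mul_comm, mul_left_comm, mul_assoc, h.exp2, sq_mul h, mul_one, one_mul]
      rwa [e] at this
  inv_mem' := by
    intro a ha
    rw [inv_eq h]
    exact ha

/-- a double count: `r` is a relation between `A` and `B` such that the elements of `A` have at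
least `|G| / m` neighbours, the elements of `B` have at most `n` -/
lemma dcount {G : Type} [Finite G] (A B : Set G) (r : G → G → Prop) (m n N : ℕ)
    (hA : ∀ a ∈ A, N ≤ m * {b | b ∈ B ∧ r a b}.ncard)
    (hB : ∀ b ∈ B, {a | a ∈ A ∧ r a b}.ncard ≤ n) : A.ncard * N ≤ m * n * B.ncard := by
  classical
  have : Fintype G := Fintype.ofFinite _
  have e1 : ∀ P : Set G, P.ncard = (Finset.univ.filter (fun c => c ∈ P)).card := by
    intro P
    rw [← Set.ncard_coe_finset]
    congr 1
    ext c
    simp
  let Af : Finset G := Finset.univ.filter (fun c => c ∈ A)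
  let Bf : Finset G := Finset.univ.filter (fun c => c ∈ B)
  have hsum := Finset.sum_card_bipartiteAbove_eq_sum_card_bipartiteBelow (s := Af) (t := Bf) r
  have h1 : ∀ a ∈ Af, N ≤ m * (Bf.bipartiteAbove r a).card := by
    intro a ha
    have ha' : a ∈ A := by simpa [Af] using ha
    refine (hA a ha').trans (le_of_eq ?_)
    congr 1
    rw [e1]
    congr 1
    ext c
    simp [Bf, Finset.bipartiteAbove]
  have h2 : ∀ b ∈ Bf, (Af.bipartiteBelow r b).card ≤ n := by
    intro b hb
    have hb' : b ∈ B := by simpa [Bf] using hb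
    refine le_trans (le_of_eq ?_) (hB b hb')
    rw [e1]
    congr 1
    ext c
    simp [Af, Finset.bipartiteBelow]
  rw [e1 A, e1 B]
  calc Af.card * N = ∑ _a ∈ Af, N := by rw [Finset.sum_const, smul_eq_mul]
    _ ≤ ∑ a ∈ Af, m * (Bf.bipartiteAbove r a).card := Finset.sum_le_sum h1
    _ = m * ∑ b ∈ Bf, (Af.bipartiteBelow r b).card := by rw [← Finset.mul_sum, hsum]
    _ ≤ m * ∑ _b ∈ Bf, n := Nat.mul_le_mul_left _ (Finset.sum_le_sum h2)
    _ = m * n * Bf.card := by rw [Finset.sum_const, smul_eq_mul]; ring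

theorem elem_four (hG : 2 ^ 8 ≤ Nat.card S.G)
    (hd : ∀ a : S.G, Nat.card (D h a) ≤ 4 ∨ (D h a).index ≤ 4) : Elem S := by
  classical
  obtain ⟨C, hC⟩ : ∃ C : Subgroup S.G, ∀ a, a ∈ C ↔ (D h a).index ≤ 4 :=
    ⟨large h 4 (by omega) (by norm_num at hG ⊢; omega) hd, fun a => Iff.rfl⟩
  have hsmall : ∀ a, a ∉ C → Nat.card (D h a) ≤ 4 := fun a ha =>
    (hd a).resolve_right fun hc => ha ((hC a).2 hc)
  by_cases hne : C = ⊤
  · refine Pool.Agent.HP778.QS.elem_of_almost h ⊤ (by rw [Subgroup.index_top]; norm_num) ?_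
    have : Pool.Agent.HP778.QS.exc h ⊤ = ∅ := by
      rw [Set.eq_empty_iff_forall_notMem]
      rintro a ⟨-, -, h4⟩
      rw [inf_top_eq] at h4
      have := (hC a).1 (by rw [hne]; exact Subgroup.mem_top a)
      omega
    rw [this, Set.ncard_empty]
    omega
  by_cases hsm : ∃ c, ∀ a ∈ C, a = 1 ∨ a = c
  · obtain ⟨c, hc⟩ := hsm
    refine Pool.Agent.K3h83.ET.elem_one _ S h inferInstance le_rfl c fun a h1 _ h3 => ?_
    have haC : a ∉ C := by
      intro ha
      rcases hc a ha with e | e
      · exact h1 e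
      · exact h3 e
    exact hsmall a haC
  push Not at hsm
  -- `V(c) ∩ V(d) ⊆ ±C`
  have hsub : ∀ c ∈ C, ∀ d ∈ C, c ≠ 1 → d ≠ 1 → c ≠ d → D h c ⊓ D h d ≤ pm h C := by
    intro c hc d hdC hc1 hd1 hcd a ha
    by_contra hcon
    have hcon' : a ∉ C ∧ S.neg * a ∉ C := not_or.1 hcon
    have h1 : S.q c a = S.zero := ha.1
    have h2 : S.q d a = S.zero := ha.2
    rcases four h (hsmall a hcon'.1) (sy h h1) (sy h h2) hc1 hd1 hcd (qneg h a)
      with e | e | e | e
    · exact hcon'.2 (e ▸ C.one_mem)
    · exact hcon'.2 (e ▸ hc)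
    · exact hcon'.2 (e ▸ hdC)
    · exact hcon'.2 (e ▸ C.mul_mem hc hdC)
  have hcard : ∀ c ∈ C, ∀ d ∈ C, 15 < Nat.card (D h c ⊓ D h d : Subgroup S.G) := by
    intro c hc d hdC
    refine card_gt _ (4 * 4) _ (card_inf _ _ _ _ ((hC c).1 hc) ((hC d).1 hdC)) ?_
    norm_num at hG ⊢
    omega
  obtain ⟨c, hc, hc1, -⟩ := hsm 1
  obtain ⟨d, hdC, hd1, hdc⟩ := hsm c
  -- the elements with value groups outside of `±C`
  let X2 : Set S.G := {a | a ∈ C ∧ a ≠ 1 ∧ ¬ D h a ≤ pm h C}
  have hX2 : X2.ncard ≤ 7 := by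
    have h1 := dcount X2 {a | a ∉ pm h C} (fun c a => S.q c a = S.zero) 8 1 (Nat.card S.G) (by
      rintro a ⟨ha, -, ha2⟩
      have h3 := half (D h a) (pm h C) ha2
      have h5 := (D h a).card_mul_index
      have h6 := (hC a).1 ha
      rw [← h5]
      have h7 : {b | b ∈ {a | a ∉ pm h C} ∧ S.q a b = S.zero}
          = {b | b ∈ D h a ∧ b ∉ pm h C} := by
        ext b
        exact and_comm
      rw [h7]
      calc Nat.card (D h a) * (D h a).index ≤ (2 * {b | b ∈ D h a ∧ b ∉ pm h C}.ncard) * 4 :=
            Nat.mul_le_mul h3 h6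
        _ = 8 * {b | b ∈ D h a ∧ b ∉ pm h C}.ncard := by ring) (by
      intro b hb
      rw [Set.ncard_le_one (Set.toFinite _)]
      rintro x ⟨⟨hx, hx1, -⟩, hxb⟩ y ⟨⟨hy, hy1, -⟩, hyb⟩
      by_contra hxy
      exact hb (hsub x hx y hy hx1 hy1 hxy ⟨hxb, hyb⟩))
    have h2 : {a | a ∉ pm h C}.ncard < Nat.card S.G := by
      rw [← Set.ncard_univ]
      refine Set.ncard_lt_ncard ?_ (Set.toFinite _)
      rw [Set.ssubset_univ_iff]
      intro e
      have : (1 : S.G) ∈ {a | a ∉ pm h C} := e ▸ Set.mem_univ _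
      exact this (Subgroup.one_mem _)
    by_contra hcon
    have h3 : 8 * Nat.card S.G ≤ X2.ncard * Nat.card S.G := Nat.mul_le_mul_right _ (by omega)
    omega
  by_cases hneg : S.neg ∈ C
  · have hpm : pm h C = C := by
      refine le_antisymm ?_ (fun a ha => Or.inl ha)
      rintro a (ha | ha)
      · exact ha
      · exact (C.mul_mem_cancel_left hneg).1 ha
    have hcC : 15 < Nat.card C := by
      have h1 := hcard c hc d hdC
      have h2 := Subgroup.card_le_of_le (hsub c hc d hdC hc1 hd1 (Ne.symm hdc))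
      rw [hpm] at h2
      omega
    obtain ⟨v, hv, hvX⟩ := exists_gen C (X2 ∪ {1}) (by
      have h1 := Set.ncard_union_le X2 {1}
      rw [Set.ncard_singleton] at h1
      omega)
    rw [Set.mem_union, not_or] at hvX
    have hvC : D h v ≤ C := by
      by_contra hcon
      exact hvX.1 ⟨hv, hvX.2, by rw [hpm]; exact hcon⟩
    have hci : C.index ≤ 4 := le_trans (Nat.le_of_dvd
      (Nat.pos_of_ne_zero Subgroup.index_ne_zero_of_finite) (Subgroup.index_dvd_of_le hvC))
      ((hC v).1 hv)
    refine Pool.Agent.HP778.QS.elem_of_almost_sub h C hci hne ?_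
    have h1 : (Pool.Agent.HP778.QS.exc h C).ncard ≤ 7 := by
      refine (Set.ncard_le_ncard ?_ (Set.toFinite _)).trans hX2
      rintro a ⟨ha, haC, h4⟩
      refine ⟨ha, ?_, fun hle => ?_⟩
      · rintro rfl
        exact haC (Subgroup.one_mem _)
      · rw [hpm] at hle
        rw [inf_eq_left.2 hle] at h4
        have := (hC a).1 ha
        omega
    norm_num at hG
    omega
  · exfalso
    have hnegc : Nat.card (D h S.neg) ≤ 4 := hsmall _ hneg
    -- `|±C| = 2 |C|`
    have hBim : {a | a ∈ pm h C ∧ a ∉ C} = (fun a => S.neg * a) '' (C : Set S.G) := by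
      ext a
      constructor
      · rintro ⟨h1 | h1, h2⟩
        · exact absurd h1 h2
        · exact ⟨S.neg * a, h1, sq_mul h _ _⟩
      · rintro ⟨b, hb, rfl⟩
        refine ⟨Or.inr ?_, fun hc => hneg ((C.mul_mem_cancel_right hb).1 hc)⟩
        show S.neg * (S.neg * b) ∈ C
        rw [sq_mul h]
        exact hb
    have hBc : {a | a ∈ pm h C ∧ a ∉ C}.ncard = Nat.card C := by
      rw [hBim, Set.ncard_image_of_injective _ (mul_right_injective S.neg)]
      rfl
    have hpmc : Nat.card (pm h C) = 2 * Nat.card C := by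
      have e1 : Nat.card (pm h C) = ((pm h C : Subgroup S.G) : Set S.G).ncard := rfl
      have e2 : ((pm h C : Subgroup S.G) : Set S.G) = (C : Set S.G) ∪
          {a | a ∈ pm h C ∧ a ∉ C} := by
        ext a
        constructor
        · intro ha
          by_cases haC : a ∈ C
          · exact Or.inl haC
          · exact Or.inr ⟨ha, haC⟩
        · rintro (ha | ha)
          · exact Or.inl ha
          · exact ha.1
      rw [e1, e2, Set.ncard_union_eq _ (Set.toFinite _) (Set.toFinite _), hBc]
      · have : (C : Set S.G).ncard = Nat.card C := rfl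
        omega
      · rw [Set.disjoint_left]
        rintro a ha ⟨-, hb⟩
        exact hb ha
    let Y1 : Set S.G := {a | a ∈ C ∧ a ≠ 1 ∧ D h a ≤ pm h C}
    have hY1 : Y1.ncard * Nat.card S.G ≤ 24 * Nat.card C := by
      have h1 := dcount Y1 {a | a ∈ pm h C ∧ a ∉ C} (fun c a => S.q c a = S.zero) 8 3
        (Nat.card S.G) (by
        rintro a ⟨ha, -, ha2⟩
        have hna : ¬ D h a ≤ C := fun hle => hneg ((C.mul_mem_cancel_right ha).1 (hle (qneg h a)))
        have h3 := half (D h a) C hna
        have h5 := (D h a).card_mul_index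
        have h6 := (hC a).1 ha
        rw [← h5]
        have h7 : {b | b ∈ {a | a ∈ pm h C ∧ a ∉ C} ∧ S.q a b = S.zero}
            = {b | b ∈ D h a ∧ b ∉ C} := by
          ext b
          constructor
          · rintro ⟨⟨-, h8⟩, h9⟩
            exact ⟨h9, h8⟩
          · rintro ⟨h9, h8⟩
            exact ⟨⟨ha2 h9, h8⟩, h9⟩
        rw [h7]
        calc Nat.card (D h a) * (D h a).index ≤ (2 * {b | b ∈ D h a ∧ b ∉ C}.ncard) * 4 :=
              Nat.mul_le_mul h3 h6
          _ = 8 * {b | b ∈ D h a ∧ b ∉ C}.ncard := by ring) (by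
        rintro b ⟨hb, hbC⟩
        have h2 := hsmall b hbC
        have h3 : {a | a ∈ Y1 ∧ S.q a b = S.zero} ⊂ (D h b : Set S.G) := by
          rw [Set.ssubset_iff_subset_ne]
          refine ⟨fun a ha => sy h ha.2, fun e => ?_⟩
          have h4 : (1 : S.G) ∈ {a | a ∈ Y1 ∧ S.q a b = S.zero} := by
            rw [e]
            exact (D h b).one_mem
          exact h4.1.2.1 rfl
        have h4 := Set.ncard_lt_ncard h3 (Set.toFinite _)
        have h5 : (D h b : Set S.G).ncard = Nat.card (D h b) := rfl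
        omega)
      rw [hBc] at h1
      omega
    have hCX : Nat.card C ≤ 1 + X2.ncard + Y1.ncard := by
      have h1 : (C : Set S.G) ⊆ ({1} ∪ X2) ∪ Y1 := by
        intro a ha
        by_cases ha1 : a = 1
        · exact Or.inl (Or.inl ha1)
        by_cases ha2 : D h a ≤ pm h C
        · exact Or.inr ⟨ha, ha1, ha2⟩
        · exact Or.inl (Or.inr ⟨ha, ha1, ha2⟩)
      have h2 := Set.ncard_le_ncard h1 (Set.toFinite _)
      have h3 := Set.ncard_union_le ({1} ∪ X2) Y1
      have h4 := Set.ncard_union_le {1} X2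
      rw [Set.ncard_singleton] at h4
      have h5 : (C : Set S.G).ncard = Nat.card C := rfl
      omega
    have h1 : 2 * Nat.card C ≤ Nat.card S.G := by
      rw [← hpmc]
      exact Subgroup.card_le_card_group _
    have h2 : Y1.ncard ≤ 12 := by
      by_contra hcon
      have : 13 * Nat.card S.G ≤ Y1.ncard * Nat.card S.G := Nat.mul_le_mul_right _ (by omega)
      omega
    have h3 : Y1.ncard ≤ 1 := by
      by_contra hcon
      have : 2 * Nat.card S.G ≤ Y1.ncard * Nat.card S.G := Nat.mul_le_mul_right _ (by omega)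
      norm_num at hG
      omega
    have h4 : Nat.card C ≤ 9 := by omega
    -- `±C ⊆ V(c)`
    have h5 : ∀ c ∈ C, S.q S.neg c = S.zero := by
      intro c hc
      by_cases hc1 : c = 1
      · rw [hc1]
        exact q_one h _
      obtain ⟨d, hdC, hd1, hdc⟩ := hsm c
      have h6 := hsub c hc d hdC hc1 hd1 (Ne.symm hdc)
      have h7 := hcard c hc d hdC
      have h8 : (D h c ⊓ D h d : Subgroup S.G) = pm h C := by
        refine Subgroup.eq_of_le_of_card_ge h6 ?_
        obtain ⟨k, hk⟩ := Subgroup.card_dvd_of_le h6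
        rw [hpmc] at hk ⊢
        have : k < 2 := by
          by_contra hcon
          have : 16 * 2 ≤ Nat.card (D h c ⊓ D h d : Subgroup S.G) * k :=
            Nat.mul_le_mul (by omega) (by omega)
          omega
        have hk0 : k ≠ 0 := by
          rintro rfl
          have : 0 < Nat.card C := Nat.card_pos
          omega
        have : k = 1 := by omega
        rw [hk, this, mul_one]
      have h9 : S.neg ∈ (D h c ⊓ D h d : Subgroup S.G) := by
        rw [h8]
        right
        rw [h.exp2]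
        exact C.one_mem
      exact sy h h9.1
    have h6 : Nat.card C ≤ Nat.card (D h S.neg) := Subgroup.card_le_of_le h5
    have h7 := hcard c hc d hdC
    have h8 := Subgroup.card_le_of_le (hsub c hc d hdC hc1 hd1 (Ne.symm hdc))
    omega

end Pool.Agent.H923.ET
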