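import Mathlib
import Pool.Agent.H923.ET.Count

/-! Quaternionic structures with a subgroup `C` such that value groups of elements outside of `C`
have at most four elements: the value groups outside of `C`. -/

set_option autoImplicit false
set_option linter.unusedSimpArgs false
set_option linter.unusedSectionVars false

namespace Pool.Agent.H923.ET

open Pool.Agent.H315R3.ETC Pool.Agent.TH673.VG

variable {S : QData} {h : IsQuat S} {C : Subgroup S.G} {M : ℕ}

/-- the setting, with `-1 ∈ C` and `C` of index at most `M` -/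
structure Ctx (h : IsQuat S) (C : Subgroup S.G) (M : ℕ) : Prop extends Ctx0 h C M where
  neg : S.neg ∈ C
  ci : C.index ≤ M

variable [Finite S.G]

lemma Ctx.cardC (H : Ctx h C M) : 64 * M ^ 2 < Nat.card C := by
  refine card_gt C M _ H.ci ?_
  have h1 := H.big
  have h2 := H.M2
  have h3 : 64 * M ^ 2 * M ≤ 16 * M ^ 5 := by
    have : 4 ≤ M ^ 2 := by nlinarith
    calc 64 * M ^ 2 * M = 16 * M ^ 3 * 4 := by ring
      _ ≤ 16 * M ^ 3 * M ^ 2 := Nat.mul_le_mul_left _ this
      _ = 16 * M ^ 5 := by ring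
  omega

/-- **Lemma A**: for `e` outside of `C` the value group of `e` is contained in `C ∪ eC` -/
theorem lemA (H : Ctx h C M) {e a : S.G} (he : e ∉ C) (ha : S.q e a = S.zero) (haC : a ∉ C) :
    a * e ∈ C := by
  classical
  have : Fintype S.G := Fintype.ofFinite _
  obtain ⟨v, hv, hvC, hvX⟩ := genX H.toCtx0 H.cardC
  have hva : v * a ∉ C := fun hc => haC ((C.mul_mem_cancel_left hv).1 hc)
  have e0 : S.q v e = S.q (v * a) e := by
    rw [eql h, ← mul_assoc, h.exp2, one_mul]
    exact sy h ha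
  obtain ⟨u, huC, hu⟩ : ∃ u ∈ C, S.q (v * a) u = S.q v e := by
    by_contra hcon
    push Not at hcon
    -- covering of `V(v)`
    let F : Finset S.G := Finset.univ.filter (fun s => S.q (v * a) s = S.zero)
    have hF : F.card ≤ 4 := by
      refine le_trans (le_of_eq ?_) (H.sm _ hva)
      have e1 : Nat.card (D h (v * a)) = (D h (v * a) : Set S.G).ncard := rfl
      rw [e1, ← Set.ncard_coe_finset]
      congr 1
      ext s
      simp [F, D]
    let B : S.G → Finset S.G := fun s => Finset.univ.filter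
      (fun y => S.q (e * s) (v * a * (e * y)) = S.zero)
    have hB : ∀ s ∈ F, (B s).card ≤ 4 := by
      intro s hs
      have hs' : S.q (v * a) s = S.zero := by simpa [F] using hs
      have hes : e * s ∉ C := by
        intro hc
        refine hcon (e * s) hc ?_
        rw [e0, eqr h, mul_comm e s, mul_assoc, h.exp2, mul_one]
        exact hs'
      refine le_trans ?_ (H.sm _ hes)
      have e1 : Nat.card (D h (e * s)) = (D h (e * s) : Set S.G).ncard := rfl
      rw [e1, ← Set.ncard_coe_finset]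
      refine Set.ncard_le_ncard_of_injOn (fun y => v * a * (e * y)) ?_ ?_ (Set.toFinite _)
      · intro y hy
        have : S.q (e * s) (v * a * (e * y)) = S.zero := by simpa [B] using hy
        exact this
      · intro y _ z _ hyz
        exact mul_left_cancel (mul_left_cancel hyz)
    have hsub : (D h v : Set S.G) ⊆ (F.biUnion B : Finset S.G) := by
      intro y hy
      have hy' : S.q v y = S.zero := hy
      have e2 : S.q (v * a) e = S.q (e * y) v := by
        rw [← e0, h.qs2 (e * y) v, eqr h, ← mul_assoc, h.exp2, one_mul]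
        exact hy'
      obtain ⟨u, h1, h2, h3⟩ := lk h e2
      rw [Finset.mem_coe, Finset.mem_biUnion]
      refine ⟨e * u, ?_, ?_⟩
      · simp only [F, Finset.mem_filter, Finset.mem_univ, true_and]
        exact h1
      · simp only [B, Finset.mem_filter, Finset.mem_univ, true_and]
        rw [sq_mul h]
        exact sy h h3
    have h1 : Nat.card (D h v) ≤ 16 := by
      have e1 : Nat.card (D h v) = (D h v : Set S.G).ncard := rfl
      rw [e1]
      refine (Set.ncard_le_ncard hsub (Set.toFinite _)).trans ?_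
      rw [Set.ncard_coe_finset]
      refine (Finset.card_biUnion_le_card_mul F B 4 hB).trans ?_
      omega
    have h2 : 16 < Nat.card (D h v) := by
      refine card_gt _ M _ ((H.mem v).1 hv) ?_
      have h3 := H.big
      have h4 := H.M2
      have h5 : 16 * M ≤ 16 * M ^ 5 := by
        refine Nat.mul_le_mul_left _ ?_
        calc M = M ^ 1 := (pow_one M).symm
          _ ≤ M ^ 5 := Nat.pow_le_pow_right (by omega) (by norm_num)
      omega
    omega
  have e3 : S.q u (v * a) = S.q v e := by rw [h.qs2]; exact hu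
  obtain ⟨w, h1, h2, h3⟩ := lk h e3
  have hewC : e * w ∈ C := hvC h2
  have hwC : w ∉ C := fun hc => he ((C.mul_mem_cancel_right hc).1 hewC)
  have huvX : u * v ∈ X h C := ⟨C.mul_mem huC hv, fun hle => hwC (hle h3)⟩
  have huC' : D h u ≤ C := by
    have := hvX _ huvX
    rwa [mul_comm u v, sq_mul h] at this
  have h4 : v * a * w ∈ C := huC' h1
  have h5 : a * w ∈ C := by
    rw [mul_assoc] at h4
    exact (C.mul_mem_cancel_left hv).1 h4
  have h6 : a * w * (e * w) ∈ C := C.mul_mem h5 hewC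
  have h7 : a * w * (e * w) = a * e := by
    rw [mul_comm e w, mul_assoc, sq_mul h]
  rwa [h7] at h6

/-- `c ∈ C` is orthogonal to an element of `wC` -/
def InK (S : QData) (C : Subgroup S.G) (w c : S.G) : Prop :=
  c ∈ C ∧ ∃ u, u * w ∈ C ∧ S.q c u = S.zero

lemma InK.of {w c : S.G} (h : IsQuat S) (hc : c ∈ C) (hq : S.q c w = S.zero) : InK S C w c :=
  ⟨hc, w, by rw [h.exp2]; exact C.one_mem, hq⟩

lemma InK.trans (h : IsQuat S) {w w' c : S.G} (hk : InK S C w c) (hw : w * w' ∈ C) :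
    InK S C w' c := by
  obtain ⟨hc, u, hu, hq⟩ := hk
  refine ⟨hc, u, ?_, hq⟩
  have := C.mul_mem hu hw
  rwa [mul_assoc, sq_mul h] at this

lemma Ctx.pow_le (H : Ctx h C M) {k : ℕ} (hk : k ≤ 4) (A : Subgroup S.G) (hA : A.index ≤ M ^ k) :
    16 * M < Nat.card A := by
  refine card_gt A (M ^ 4) _ (hA.trans (Nat.pow_le_pow_right (by have := H.M2; omega) hk)) ?_
  have := H.big
  have e : 16 * M * M ^ 4 = 16 * M ^ 5 := by ring
  omega

/-- **Lemma K**: the elements of `C` orthogonal to some element of `wC` form a group -/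
theorem lemK (H : Ctx h C M) {w c₁ c₂ : S.G} (h1 : InK S C w c₁) (h2 : InK S C w c₂) :
    InK S C w (c₁ * c₂) := by
  obtain ⟨hc1, w1, hw1, q1⟩ := h1
  obtain ⟨hc2, w2, hw2, q2⟩ := h2
  have hw : w1 * w2 ∈ C := by
    have := C.mul_mem hw1 hw2
    rwa [mul_comm w2 w, mul_assoc, sq_mul h] at this
  obtain ⟨v, hv, -, hvC⟩ := gen2 H.toCtx0 (C ⊓ D h (w1 * w2)) inf_le_left
    (H.pow_le (k := 2) (by norm_num) _ (by
      rw [pow_two]
      exact card_inf _ _ _ _ H.ci ((H.mem _).1 hw))) hc1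
  have hv2 : S.q v (w1 * w2) = S.zero := sy h hv.2
  have e1 : S.q (v * c₁) w1 = S.q (v * c₂) w2 := by
    have e2 : S.q (v * c₁) w1 = S.q v w1 := by
      rw [eql h, mul_comm v c₁, mul_assoc, h.exp2, mul_one]
      exact q1
    have e3 : S.q (v * c₂) w2 = S.q v w2 := by
      rw [eql h, mul_comm v c₂, mul_assoc, h.exp2, mul_one]
      exact q2
    rw [e2, e3, eqr h]
    exact hv2
  obtain ⟨u, h3, -, h5⟩ := lk h e1
  refine ⟨C.mul_mem hc1 hc2, u, ?_, ?_⟩
  · have h6 : w1 * u ∈ C := hvC h3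
    have := C.mul_mem h6 hw1
    have e4 : w1 * u * (w1 * w) = u * w := by
      rw [mul_comm w1 u, mul_assoc, sq_mul h]
    rwa [e4] at this
  · have e4 : v * c₁ * (v * c₂) = c₁ * c₂ := by
      rw [mul_comm v c₁, mul_assoc, sq_mul h]
    rwa [e4] at h5

/-- the value group of an element outside of `C` orthogonal to `x ∈ C` -/
lemma vg (H : Ctx h C M) {w x : S.G} (hw : w ∉ C) (hx : x ∈ C) (hx1 : x ≠ 1)
    (hxw : S.q x w = S.zero) {z : S.G} (hz : S.q w z = S.zero) :
    z = 1 ∨ z = x ∨ z = S.neg * w ∨ z = x * (S.neg * w) := by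
  refine four h (H.sm w hw) (sy h hxw) (qneg h w) hx1 ?_ ?_ hz
  · intro e
    apply hw
    have : S.neg * (S.neg * w) = S.neg * 1 := by rw [e]
    rw [sq_mul h, mul_one] at this
    rw [this]
    exact H.neg
  · intro e
    apply hw
    have : S.neg * (S.neg * w) = S.neg * x := by rw [e]
    rw [sq_mul h] at this
    rw [this]
    exact C.mul_mem H.neg hx

lemma not_neg (H : Ctx h C M) {w : S.G} (hw : w ∉ C) : S.neg * w ∉ C := fun hc =>
  hw ((C.mul_mem_cancel_left H.neg).1 hc)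

/-- at most one element `≠ 1` of `C` is orthogonal to an element outside of `C` -/
lemma unique_orth (H : Ctx h C M) {w x y : S.G} (hw : w ∉ C) (hx : x ∈ C) (hy : y ∈ C)
    (hx1 : x ≠ 1) (hy1 : y ≠ 1) (hxw : S.q x w = S.zero) (hyw : S.q y w = S.zero) : x = y := by
  rcases vg H hw hx hx1 hxw (sy h hyw) with e | e | e | e
  · exact absurd e hy1
  · exact e.symm
  · exact absurd (e ▸ hy) (not_neg H hw)
  · exfalso
    rw [e] at hy
    exact not_neg H hw ((C.mul_mem_cancel_left hx).1 hy)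

/-- **Lemma B1** -/
theorem lemB1 (H : Ctx h C M) {w x c : S.G} (hw : w ∉ C) (hx : x ∈ C) (hx1 : x ≠ 1)
    (hxw : S.q x w = S.zero) (hc : InK S C w c) :
    S.q c (S.neg * w) = S.zero ∨ S.q (x * c) (S.neg * w * x) = S.zero := by
  obtain ⟨hcC, w', hw', hcw'⟩ := hc
  obtain ⟨v, hv, hvC, hvxC⟩ := gen2 H.toCtx0 (C ⊓ D h (w' * w) ⊓ D h x ⊓ D h c)
    (inf_le_left.trans (inf_le_left.trans inf_le_left))
    (H.pow_le (k := 4) (by norm_num) _ (by
      have h1 := card_inf C (D h (w' * w)) M M H.ci ((H.mem _).1 hw')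
      have h2 := card_inf _ (D h x) (M * M) M h1 ((H.mem _).1 hx)
      have h3 := card_inf _ (D h c) (M * M * M) M h2 ((H.mem _).1 hcC)
      refine h3.trans (le_of_eq ?_)
      ring)) hx
  obtain ⟨⟨⟨hv1, hv2⟩, hv3⟩, hv4⟩ := hv
  have hv2' : S.q v (w' * w) = S.zero := sy h hv2
  have hv3' : S.q x v = S.zero := hv3
  have hv4' : S.q c v = S.zero := hv4
  have e1 : S.q w v = S.q (v * c) w' := by
    have e2 : S.q (v * c) w' = S.q v w' := by
      rw [eql h, mul_comm v c, mul_assoc, h.exp2, mul_one]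
      exact hcw'
    rw [e2, h.qs2 w v, eqr h, mul_comm]
    exact hv2'
  obtain ⟨u, h1, -, h3⟩ := lk h e1
  rcases vg H hw hx hx1 hxw h1 with e | e | e | e
  · -- `u = v`
    have hu : u = v := (eq_of_mul h _ _ e).symm
    rw [hu] at h3
    exfalso
    have h4 : w * (v * c) ∈ C := hvC (sy h h3)
    exact hw ((C.mul_mem_cancel_right (C.mul_mem hv1 hcC)).1 h4)
  · have hu : u = v * x := by rw [← e, sq_mul h]
    rw [hu] at h3
    exfalso
    have h4 : w * (v * c) ∈ C := hvxC (sy h h3)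
    exact hw ((C.mul_mem_cancel_right (C.mul_mem hv1 hcC)).1 h4)
  · left
    have hu : u = S.neg * (w * v) := by
      have : v * (v * u) = v * (S.neg * w) := by rw [e]
      rw [sq_mul h] at this
      rw [this, mul_left_comm, mul_comm v w]
    rw [hu] at h3
    have h4 := qneg h (w * v)
    have h5 : S.q (w * (v * c) * (w * v)) (S.neg * (w * v)) = S.zero := ml h h3 h4
    have e5 : w * (v * c) * (w * v) = c := by
      simp only [mul_comm, mul_left_comm, mul_assoc, h.exp2, sq_mul h, mul_one, one_mul]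
    rw [e5] at h5
    have h6 : S.q c (S.neg * (w * v) * v) = S.zero := p_mul h h5 hv4'
    have e6 : S.neg * (w * v) * v = S.neg * w := by
      simp only [mul_comm, mul_left_comm, mul_assoc, h.exp2, sq_mul h, mul_one, one_mul]
    rwa [e6] at h6
  · right
    have hu : u = S.neg * (w * v * x) := by
      have : v * (v * u) = v * (x * (S.neg * w)) := by rw [e]
      rw [sq_mul h] at this
      rw [this]
      simp only [mul_comm, mul_left_comm, mul_assoc]
    rw [hu] at h3
    have h4 := qneg h (w * v * x)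
    have h5 : S.q (w * (v * c) * (w * v * x)) (S.neg * (w * v * x)) = S.zero := ml h h3 h4
    have e5 : w * (v * c) * (w * v * x) = x * c := by
      simp only [mul_comm, mul_left_comm, mul_assoc, h.exp2, sq_mul h, mul_one, one_mul]
    rw [e5] at h5
    have h6 : S.q (x * c) (S.neg * (w * v * x) * v) = S.zero := p_mul h h5 (ml h hv3' hv4')
    have e6 : S.neg * (w * v * x) * v = S.neg * w * x := by
      simp only [mul_comm, mul_left_comm, mul_assoc, h.exp2, sq_mul h, mul_one, one_mul]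
    rwa [e6] at h6

/-- **Lemma B** -/
theorem lemB (H : Ctx h C M) {w x y : S.G} (hw : w ∉ C) (hx : x ∈ C) (hx1 : x ≠ 1)
    (hy1 : y ≠ 1) (hxy : x ≠ y) (hxw : S.q x w = S.zero) (hy : InK S C w y) :
    ∃ α, (α = y ∨ α = x * y) ∧ S.q α (S.neg * w) = S.zero ∧ S.q α x = S.zero := by
  have hxy1 : x * y ≠ 1 := fun e => hxy (eq_of_mul h _ _ e)
  have hyxy : y ≠ x * y := fun e => hx1 (by
    have : 1 * y = x * y := by rw [one_mul]; exact e
    exact (mul_right_cancel this).symm)
  have hK : InK S C w (x * y) := lemK H (InK.of h hx hxw) hy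
  have hnw := not_neg H hw
  have hnwx : S.neg * w * x ∉ C := fun hc => hnw ((C.mul_mem_cancel_right hx).1 hc)
  have b1 := lemB1 H hw hx hx1 hxw hy
  have b2 := lemB1 H hw hx hx1 hxw hK
  rw [sq_mul h] at b2
  have fin : ∀ α, S.q α (S.neg * w) = S.zero → S.q α (S.neg * w * x) = S.zero →
      S.q α x = S.zero := by
    intro α h1 h2
    have := p_mul h h1 h2
    rwa [sq_mul h] at this
  rcases b1 with b1 | b1 <;> rcases b2 with b2 | b2
  · exact absurd (unique_orth H hnw hy.1 hK.1 hy1 hxy1 b1 b2) hyxy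
  · exact ⟨y, Or.inl rfl, b1, fin _ b1 b2⟩
  · exact ⟨x * y, Or.inr rfl, b2, fin _ b2 b1⟩
  · exact absurd (unique_orth H hnwx hK.1 hy.1 hxy1 hy1 b1 b2).symm hyxy

lemma lemZ (H : Ctx h C M) {w c α : S.G} (hw : w ∉ C) (hc : c ∈ C) (hα : α ∈ C) (hc1 : c ≠ 1)
    (hα1 : α ≠ 1) (hcα : α ≠ c) (hcw : S.q c w = S.zero) (hαw : S.q α (S.neg * w) = S.zero)
    (hcc : S.q c c = S.zero) : False := by
  have h1 : S.q c S.neg = S.zero := by
    have := p_mul h (qneg h c) hcc
    rwa [mul_cancel h] at this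
  exact hcα (unique_orth H (not_neg H hw) hα hc hα1 hc1 hαw (p_mul h h1 hcw))

/-- **Lemma K2**: at most one element `≠ 1` of `C` is orthogonal to elements of `wC` -/
theorem lemK2 (H : Ctx h C M) {w x y : S.G} (hw : w ∉ C) (hx1 : x ≠ 1) (hy1 : y ≠ 1)
    (hx : InK S C w x) (hy : InK S C w y) : x = y := by
  by_contra hxy
  have hxy1 : x * y ≠ 1 := fun e => hxy (eq_of_mul h _ _ e)
  have hK : InK S C w (x * y) := lemK H hx hy
  have tr : ∀ {c : S.G}, InK S C w c → ∃ u, u ∉ C ∧ S.q c u = S.zero ∧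
      ∀ d, InK S C w d → InK S C u d := by
    rintro c ⟨-, u, hu, hq⟩
    have hu' : w * u ∈ C := by rw [mul_comm]; exact hu
    refine ⟨u, fun hc => hw ((C.mul_mem_cancel_left hc).1 hu), hq, fun d hd => hd.trans h hu'⟩
  obtain ⟨w1, hw1, q1, t1⟩ := tr hx
  obtain ⟨w2, hw2, q2, t2⟩ := tr hy
  obtain ⟨w3, hw3, q3, t3⟩ := tr hK
  have n1 : y ≠ x * y := fun e => hx1 (by
    have : 1 * y = x * y := by rw [one_mul]; exact e
    exact (mul_right_cancel this).symm)
  have n2 : x ≠ x * y := fun e => hy1 (by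
    have : x * 1 = x * y := by rw [mul_one]; exact e
    exact (mul_left_cancel this).symm)
  obtain ⟨α1, a1, a2, a3⟩ := lemB H hw1 hx.1 hx1 hy1 hxy q1 (t1 _ hy)
  obtain ⟨α2, b1, b2, b3⟩ := lemB H hw2 hy.1 hy1 hx1 (Ne.symm hxy) q2 (t2 _ hx)
  obtain ⟨α3, c1, c2, c3⟩ := lemB H hw3 hK.1 hxy1 hx1 n2.symm q3 (t3 _ hx)
  have e3 : x * y * x = y := by
    simp only [mul_comm, mul_left_comm, mul_assoc, h.exp2, sq_mul h, mul_one, one_mul]
  have e2 : y * x = x * y := mul_comm _ _
  rw [e3] at c1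
  rw [e2] at b1
  have hα1 : α1 ∈ C ∧ α1 ≠ 1 ∧ α1 ≠ x := by
    rcases a1 with rfl | rfl
    · exact ⟨hy.1, hy1, Ne.symm hxy⟩
    · exact ⟨hK.1, hxy1, n2.symm⟩
  have hα2 : α2 ∈ C ∧ α2 ≠ 1 ∧ α2 ≠ y := by
    rcases b1 with rfl | rfl
    · exact ⟨hx.1, hx1, hxy⟩
    · exact ⟨hK.1, hxy1, n1.symm⟩
  have hα3 : α3 ∈ C ∧ α3 ≠ 1 ∧ α3 ≠ x * y := by
    rcases c1 with rfl | rfl
    · exact ⟨hx.1, hx1, n2⟩
    · exact ⟨hy.1, hy1, n1⟩
  have Zx : S.q x x ≠ S.zero := fun e => lemZ H hw1 hx.1 hα1.1 hx1 hα1.2.1 hα1.2.2 q1 a2 e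
  have Zy : S.q y y ≠ S.zero := fun e => lemZ H hw2 hy.1 hα2.1 hy1 hα2.2.1 hα2.2.2 q2 b2 e
  have Zxy : S.q (x * y) (x * y) ≠ S.zero := fun e =>
    lemZ H hw3 hK.1 hα3.1 hxy1 hα3.2.1 hα3.2.2 q3 c2 e
  rcases a1 with e | e <;> rw [e] at a3
  · -- `y ⊥ x`
    rcases c1 with e | e <;> rw [e] at c3
    · apply Zx
      have := p_mul h c3 (sy h a3)
      rwa [mul_cancel h] at this
    · apply Zy
      have := p_mul h c3 a3
      have e4 : x * y * x = y := by
        simp only [mul_comm, mul_left_comm, mul_assoc, h.exp2, sq_mul h, mul_one, one_mul]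
      rwa [e4] at this
  · -- `xy ⊥ x`
    rcases b1 with e | e
    · apply Zx
      rw [e] at b3
      have := ml h a3 (sy h b3)
      rwa [mul_cancel h] at this
    · apply Zxy
      rw [e] at b3
      exact p_mul h a3 b3

/-- **Lemma K3**: different cosets -/
theorem lemK3 (H : Ctx h C M) {w w' x y : S.G} (hw : w ∉ C) (hw' : w' ∉ C) (hww : w * w' ∉ C)
    (hx : x ∈ C) (hy : y ∈ C) (hx1 : x ≠ 1) (hy1 : y ≠ 1) (q1 : S.q x w = S.zero)
    (q2 : S.q y w' = S.zero) : x = y := by
  by_contra hxy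
  have hxy1 : x * y ≠ 1 := fun e => hxy (eq_of_mul h _ _ e)
  have n1 : y ≠ x * y := fun e => hx1 (by
    have : 1 * y = x * y := by rw [one_mul]; exact e
    exact (mul_right_cancel this).symm)
  have n2 : x ≠ x * y := fun e => hy1 (by
    have : x * 1 = x * y := by rw [mul_one]; exact e
    exact (mul_left_cancel this).symm)
  obtain ⟨g, hg⟩ : ∃ g, g = S.neg * (w * w') := ⟨_, rfl⟩
  have hgC : g ∉ C := by rw [hg]; exact not_neg H hww
  have e1 : S.q (g * x) w = S.q (g * y) w' := by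
    have e2 : S.q (g * x) w = S.q g w := by
      rw [eql h, mul_comm g x, mul_assoc, h.exp2, mul_one]
      exact q1
    have e3 : S.q (g * y) w' = S.q g w' := by
      rw [eql h, mul_comm g y, mul_assoc, h.exp2, mul_one]
      exact q2
    rw [e2, e3, eqr h]
    have e4 : w * w' = S.neg * g := by rw [hg, sq_mul h]
    rw [e4]
    exact qneg h g
  obtain ⟨u, h1, h2, h3⟩ := lk h e1
  have e5 : g * x * (g * y) = x * y := by
    simp only [mul_comm, mul_left_comm, mul_assoc, h.exp2, sq_mul h, mul_one, one_mul]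
  rw [e5] at h3
  have hgx : g * x ∉ C := fun hc => hgC ((C.mul_mem_cancel_right hx).1 hc)
  by_cases hwu : w * u ∈ C
  · have hK : InK S C w (x * y) := ⟨C.mul_mem hx hy, u, by rw [mul_comm]; exact hwu, h3⟩
    exact n2 (lemK2 H hw hx1 hxy1 (InK.of h hx q1) hK)
  · have h4 := lemA H hgx h1 hwu
    have h5 : u * w' ∈ C := by
      have h6 := C.mul_mem (C.mul_mem h4 hx) H.neg
      have e6 : w * u * (g * x) * x * S.neg = u * w' := by
        rw [hg]
        simp only [mul_comm, mul_left_comm, mul_assoc, h.exp2, sq_mul h, mul_one, one_mul]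
      rwa [e6] at h6
    have hK : InK S C w' (x * y) := ⟨C.mul_mem hx hy, u, h5, h3⟩
    exact n1 (lemK2 H hw' hy1 hxy1 (InK.of h hy q2) hK)

/-- there is an `x ∈ C` such that only `1` and `x` are orthogonal to elements outside of `C` -/
theorem exists_x (H : Ctx h C M) : ∃ x ∈ C, (∀ w, w ∉ C → ∀ c ∈ C, S.q c w = S.zero →
    c = 1 ∨ c = x) ∧ (x = 1 ∨ ∃ e, e ∉ C ∧ S.q x e = S.zero) := by
  by_cases hex : ∃ c₀ ∈ C, c₀ ≠ 1 ∧ ∃ w₀, w₀ ∉ C ∧ S.q c₀ w₀ = S.zero
  · obtain ⟨c₀, hc₀, hc1, w₀, hw₀, hq₀⟩ := hex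
    refine ⟨c₀, hc₀, fun w hw c hc hq => ?_, Or.inr ⟨w₀, hw₀, hq₀⟩⟩
    by_cases hc1' : c = 1
    · exact Or.inl hc1'
    · right
      by_cases hww : w * w₀ ∈ C
      · exact lemK2 H hw hc1' hc1 (InK.of h hc hq)
          ⟨hc₀, w₀, by rw [mul_comm]; exact hww, hq₀⟩
      · exact lemK3 H hw hw₀ hww hc hc₀ hc1' hc1 hq hq₀
  · push Not at hex
    refine ⟨1, C.one_mem, fun w hw c hc hq => ?_, Or.inl rfl⟩
    by_contra hcon
    push Not at hcon
    exact hex c hc hcon.1 w hw hq

end Pool.Agent.H923.ET
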