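import Mathlib
import Pool.Agent.H923.ET.Local

/-! Quaternionic structures with a subgroup `C` such that value groups of elements outside of `C`
have at most four elements: reduction to `C`. -/

set_option autoImplicit false
set_option linter.unusedSimpArgs false
set_option linter.unusedSectionVars false

namespace Pool.Agent.H923.ET

open Pool.Agent.H315R3.ETC Pool.Agent.TH673.VG

/-- the restriction of a structure to a subgroup -/
def sub (S : QData) (C : Subgroup S.G) (hn : S.neg ∈ C) : QData :=
  ⟨C, S.Q, ⟨S.neg, hn⟩, fun a b => S.q a b, S.zero⟩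

variable {S : QData} {h : IsQuat S} {C : Subgroup S.G} {M : ℕ} [Finite S.G]

theorem sub_quat (h : IsQuat S) (hn : S.neg ∈ C) (x : S.G)
    (P1 : ∀ w, w ∉ C → ∀ c ∈ C, S.q c w = S.zero → c = 1 ∨ c = x) : IsQuat (sub S C hn) where
  exp2 a := Subtype.ext (h.exp2 a.1)
  qs1 a := h.qs1 a.1
  qs2 a b := h.qs2 a.1 b.1
  qs3 a b c := h.qs3 a.1 b.1 c.1
  qs4 := by
    intro a b c d e
    have e' : S.q a.1 b.1 = S.q c.1 d.1 := e
    have o : ∀ t : S.G, S.q 1 t = S.zero := one_q h
    by_cases ha1 : a.1 = 1
    · refine ⟨d, ?_, rfl⟩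
      show S.q a.1 b.1 = S.q a.1 d.1
      rw [ha1, o, o]
    by_cases hc1 : c.1 = 1
    · refine ⟨b, rfl, ?_⟩
      show S.q c.1 d.1 = S.q c.1 b.1
      rw [hc1, o, o]
    by_cases hac : a.1 = c.1
    · refine ⟨b, rfl, ?_⟩
      show S.q c.1 d.1 = S.q c.1 b.1
      rw [← e', hac]
    obtain ⟨z, h1, h2⟩ := h.qs4 _ _ _ _ e'
    have hz : z ∈ C := by
      by_contra hz
      have h3 : S.q a.1 (b.1 * z) = S.zero := (h.qs3 _ _ _).1 h1
      have h4 : S.q c.1 (d.1 * z) = S.zero := (h.qs3 _ _ _).1 h2
      have h5 : b.1 * z ∉ C := fun hc => hz ((C.mul_mem_cancel_left b.2).1 hc)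
      have h6 : d.1 * z ∉ C := fun hc => hz ((C.mul_mem_cancel_left d.2).1 hc)
      rcases P1 _ h5 _ a.2 h3 with h7 | h7
      · exact ha1 h7
      · rcases P1 _ h6 _ c.2 h4 with h8 | h8
        · exact hc1 h8
        · exact hac (h7.trans h8.symm)
    exact ⟨⟨z, hz⟩, h1, h2⟩

/-- the criterion for `S` follows from the criterion for `C` -/
theorem step_of_sub (h : IsQuat S) (hn : S.neg ∈ C) (x : S.G) (hxC : x ∈ C)
    (P1 : ∀ w, w ∉ C → ∀ c ∈ C, S.q c w = S.zero → c = 1 ∨ c = x)
    (P2 : ∀ e a : S.G, e ∉ C → S.q e a = S.zero → a ∉ C → a * e ∈ C)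
    (P4 : x = 1 ∨ ∃ e, e ∉ C ∧ S.q x e = S.zero)
    (P3 : ∀ H : Subgroup (sub S C hn).G, H ≠ ⊤ → Step (sub S C hn) H) :
    ∀ H : Subgroup S.G, H ≠ ⊤ → Step S H := by
  intro H hH
  -- elements outside of `C`
  have out : ∀ g z : S.G, g ∉ C → S.q g z = S.zero →
      z = 1 ∨ z = x ∨ z = S.neg * g ∨ z = S.neg * g * x := by
    intro g z hg hz
    by_cases hzC : z ∈ C
    · rcases P1 g hg z hzC (sy h hz) with e | e
      · exact Or.inl e
      · exact Or.inr (Or.inl e)
    · have h1 := P2 g z hg hz hzC
      have h2 : z * g * S.neg ∈ C := C.mul_mem h1 hn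
      have h3 : S.q g (z * g * S.neg) = S.zero := by
        have := p_mul h hz (qneg h g)
        have e : z * (S.neg * g) = z * g * S.neg := by
          simp only [mul_comm, mul_left_comm, mul_assoc]
        rwa [e] at this
      rcases P1 g hg _ h2 (sy h h3) with e | e
      · refine Or.inr (Or.inr (Or.inl ?_))
        have : z * g * S.neg * (S.neg * g) = 1 * (S.neg * g) := by rw [e]
        rw [one_mul] at this
        rw [← this]
        simp only [mul_comm, mul_left_comm, mul_assoc, h.exp2, sq_mul h, mul_one, one_mul]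
      · refine Or.inr (Or.inr (Or.inr ?_))
        have : z * g * S.neg * (S.neg * g) = x * (S.neg * g) := by rw [e]
        rw [mul_comm (S.neg * g) x, ← this]
        simp only [mul_comm, mul_left_comm, mul_assoc, h.exp2, sq_mul h, mul_one, one_mul]
  by_cases hx : x ∈ H
  · -- `x ∈ H`
    have outH : ∀ a g : S.G, g ∈ H → a * g ∉ C → ∀ z, S.q (a * g) z = S.zero →
        ∃ v k : S.G, S.q a v = S.zero ∧ k ∈ H ∧ v * k = z := by
      intro a g hg hag z hz
      rcases out _ z hag hz with e | e | e | e
      · exact ⟨1, 1, q_one h a, H.one_mem, by rw [e, one_mul]⟩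
      · exact ⟨1, x, q_one h a, hx, by rw [e, one_mul]⟩
      · exact ⟨S.neg * a, g, qneg h a, hg, by rw [e, mul_assoc]⟩
      · exact ⟨S.neg * a, g * x, qneg h a, H.mul_mem hg hx, by
          rw [e]; simp only [mul_assoc]⟩
    by_cases hCH : C ≤ H
    · obtain ⟨a, ha⟩ : ∃ b : S.G, b ∉ H := by
        by_contra hc'
        push Not at hc'
        exact hH (eq_top_iff.2 fun x _ => hc' x)
      refine ⟨a, ha, fun g hg z hz => outH a g hg (fun hc => ?_) z hz⟩
      exact ha ((H.mul_mem_cancel_right hg).1 (hCH hc))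
    · have hne : (H.subgroupOf C) ≠ ⊤ := by
        intro e
        exact hCH (Subgroup.subgroupOf_eq_top.1 e)
      obtain ⟨a, ha, hstep⟩ := P3 (H.subgroupOf C) hne
      have haH : a.1 ∉ H := fun hc => ha (Subgroup.mem_subgroupOf.2 hc)
      refine ⟨a.1, haH, fun g hg z hz => ?_⟩
      by_cases hgC : g ∈ C
      · have hagC : a.1 * g ∈ C := C.mul_mem a.2 hgC
        have hzC : z ∈ C := by
          by_contra hzC
          rcases P1 z hzC _ hagC hz with e | e
          · exact haH (by rw [eq_of_mul h _ _ e]; exact hg)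
          · have : a.1 = x * g := by rw [← e, mul_cancel h]
            exact haH (by rw [this]; exact H.mul_mem hx hg)
        obtain ⟨v, k, h1, h2, h3⟩ := hstep ⟨g, hgC⟩ (Subgroup.mem_subgroupOf.2 hg) ⟨z, hzC⟩ hz
        exact ⟨v.1, k.1, h1, Subgroup.mem_subgroupOf.1 h2, congrArg Subtype.val h3⟩
      · exact outH a.1 g hg (fun hc => hgC ((C.mul_mem_cancel_left a.2).1 hc)) z hz
  · -- `x ∉ H`
    have hx1 : x ≠ 1 := fun e => hx (e ▸ H.one_mem)
    refine ⟨x, hx, fun g hg z hz => ?_⟩
    by_cases hgC : g ∈ C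
    · by_cases hg1 : g = 1
      · subst hg1
        rw [mul_one] at hz
        exact ⟨z, 1, hz, H.one_mem, mul_one z⟩
      have hgx : g ≠ x := fun e => hx (e ▸ hg)
      have hzC : z ∈ C := by
        by_contra hzC
        rcases P1 z hzC _ (C.mul_mem hxC hgC) hz with e | e
        · exact hgx (eq_of_mul h _ _ e).symm
        · exact hg1 (by simpa using e)
      by_cases hxz : S.q x z = S.zero
      · exact ⟨z, 1, hxz, H.one_mem, mul_one z⟩
      obtain ⟨e₀, he₀, hq₀⟩ := P4.resolve_left hx1
      have hgC' : ∀ y, S.q g y = S.zero → y ∈ C := by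
        intro y hy
        by_contra hyC
        rcases P1 y hyC g hgC hy with e | e
        · exact hg1 e
        · exact hgx e
      have e1 : S.q x z = S.q g z := (eql h).2 hz
      have e2 : S.q (z * e₀) x = S.q g z := by
        rw [← e1, h.qs2 x z, eql h]
        have e3 : z * e₀ * z = e₀ := by
          simp only [mul_comm, mul_left_comm, mul_assoc, h.exp2, sq_mul h, mul_one, one_mul]
        rw [e3]
        exact sy h hq₀
      obtain ⟨u, h1, h2, h3⟩ := lk h e2
      have hzu := hgC' _ h2
      have huC : u ∈ C := (C.mul_mem_cancel_left hzC).1 hzu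
      have hout : z * e₀ * g ∉ C := by
        intro hc
        apply he₀
        have h4 := (C.mul_mem_cancel_right hgC).1 hc
        exact (C.mul_mem_cancel_left hzC).1 h4
      rcases P1 _ hout u huC (sy h h3) with e | e
      · rw [e, mul_one] at h2
        exact absurd (e1.trans h2) hxz
      · rw [e] at h2
        -- `q g z = q g x`
        have h4 : S.q g z = S.q g x := (eqr h).2 h2
        have h5 : S.q x z = S.q x g := by rw [e1, h4, h.qs2]
        have h6 : S.q x (z * g) = S.zero := (eqr h).1 h5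
        exact ⟨z * g, g, h6, hg, mul_cancel h z g⟩
    · have hxg : x * g ∉ C := fun hc => hgC ((C.mul_mem_cancel_left hxC).1 hc)
      rcases out _ z hxg hz with e | e | e | e
      · exact ⟨1, 1, q_one h x, H.one_mem, by rw [e, one_mul]⟩
      · -- `z = x`
        rw [e] at hz
        exact ⟨x * g, g, sy h hz, hg, by rw [e, mul_cancel h]⟩
      · exact ⟨S.neg * x, g, qneg h x, hg, by rw [e, mul_assoc]⟩
      · -- `z = -g`
        have e' : z = S.neg * g := by
          rw [e]
          simp only [mul_comm, mul_left_comm, mul_assoc, h.exp2, sq_mul h, mul_one, one_mul]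
        have h1 : S.q (x * g) x = S.zero := by
          have h2 := p_mul h hz (qneg h (x * g))
          have e3 : z * (S.neg * (x * g)) = x := by
            rw [e']
            simp only [mul_comm, mul_left_comm, mul_assoc, h.exp2, sq_mul h, mul_one, one_mul]
          rwa [e3] at h2
        refine ⟨S.neg * g, 1, ?_, H.one_mem, by rw [e', mul_one]⟩
        have h2 := p_mul h (sy h h1) (qneg h x)
        have e3 : x * g * (S.neg * x) = S.neg * g := by
          simp only [mul_comm, mul_left_comm, mul_assoc, h.exp2, sq_mul h, mul_one, one_mul]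
        rwa [e3] at h2

end Pool.Agent.H923.ET
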