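import Mathlib
import Pool.Agent.H923.ET.Step
import Pool.Agent.H923.ET.Four
import Pool.Graph.R_seed8.TH673.VG.Crit
import Pool.Graph.R_seed8.TH673.VG.CritInd
import Pool.Graph.R_seed8.HP778.QS.Almost
import Pool.Graph.R_pool_sql_team_seeded_5cf16337.K3h83.ET.One

/-! Quaternionic structures whose value groups have order at most four or index at most eight. -/

set_option autoImplicit false
set_option linter.unusedSimpArgs false
set_option linter.unusedSectionVars false

namespace Pool.Agent.H923.ET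

open Pool.Agent.H315R3.ETC Pool.Agent.TH673.VG

variable {S : QData} (h : IsQuat S) {M : ℕ} [Finite S.G]

/-- the setting `Ctx` or elementary type -/
theorem elem_or_ctx (hM : 2 ≤ M) (hG : 16 * M ^ 5 < Nat.card S.G)
    (hd : ∀ a : S.G, Nat.card (D h a) ≤ 4 ∨ (D h a).index ≤ M)
    (hex : ∃ a : S.G, M < (D h a).index) : Elem S ∨ ∃ C : Subgroup S.G, Ctx h C M := by
  have p4 : 1 ≤ M ^ 4 := Nat.one_le_pow _ _ (by omega)
  have p3 : 1 ≤ M ^ 3 := Nat.one_le_pow _ _ (by omega)
  have p2 : 1 ≤ M ^ 2 := Nat.one_le_pow _ _ (by omega)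
  have hG1 : 4 * (M * M) < Nat.card S.G := by
    have : M * M * 1 ≤ M * M * M ^ 3 := Nat.mul_le_mul_left _ p3
    have e : M * M * M ^ 3 = M ^ 5 := by ring
    rw [mul_one, e] at this
    omega
  obtain ⟨C, hC⟩ : ∃ C : Subgroup S.G, ∀ a, a ∈ C ↔ (D h a).index ≤ M :=
    ⟨large h M (by omega) hG1 hd, fun a => Iff.rfl⟩
  have hne : C ≠ ⊤ := by
    rintro rfl
    obtain ⟨a, ha⟩ := hex
    have := (hC a).1 (Subgroup.mem_top a)
    omega
  have H0 : Ctx0 h C M := ⟨hC, fun a ha => (hd a).resolve_right fun hc => ha ((hC a).2 hc),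
    hne, hM, hG⟩
  by_cases hsm : ∃ c, ∀ a ∈ C, a = 1 ∨ a = c
  · left
    obtain ⟨c, hc⟩ := hsm
    refine Pool.Agent.K3h83.ET.elem_one _ S h inferInstance le_rfl c fun a h1 _ h3 => ?_
    have haC : a ∉ C := by
      intro ha
      rcases hc a ha with e | e
      · exact h1 e
      · exact h3 e
    exact H0.sm a haC
  right
  push Not at hsm
  obtain ⟨c, hc, hc1, -⟩ := hsm 1
  obtain ⟨d, hdC, hd1, hdc⟩ := hsm c
  -- `V(c) ∩ V(d) ⊆ C ∪ -C`
  have hsub : ∀ a ∈ D h c ⊓ D h d, a ∈ C ∨ S.neg * a ∈ C := by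
    intro a ha
    by_contra hcon
    push Not at hcon
    have h1 : S.q c a = S.zero := ha.1
    have h2 : S.q d a = S.zero := ha.2
    rcases four h (H0.sm a hcon.1) (sy h h1) (sy h h2) hc1 hd1 (Ne.symm hdc) (qneg h a)
      with e | e | e | e
    · exact hcon.2 (e ▸ C.one_mem)
    · exact hcon.2 (e ▸ hc)
    · exact hcon.2 (e ▸ hdC)
    · exact hcon.2 (e ▸ C.mul_mem hc hdC)
  have hidx : (D h c ⊓ D h d).index ≤ M * M := card_inf _ _ _ _ ((hC c).1 hc) ((hC d).1 hdC)
  have hcard : 16 * M < Nat.card (D h c ⊓ D h d : Subgroup S.G) := by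
    refine card_gt _ _ _ hidx ?_
    have : 16 * M ^ 3 * 1 ≤ 16 * M ^ 3 * M ^ 2 := Nat.mul_le_mul_left _ p2
    have e1 : 16 * M * (M * M) = 16 * M ^ 3 := by ring
    have e2 : 16 * M ^ 3 * M ^ 2 = 16 * M ^ 5 := by ring
    rw [mul_one, e2] at this
    omega
  have hX := Xcard H0
  have hneg : S.neg ∈ C := by
    by_contra hneg
    have hXC : X h C = (C : Set S.G) := by
      ext a
      refine ⟨fun ha => ha.1, fun ha => ⟨ha, fun hle => hneg ?_⟩⟩
      have h1 : S.neg * a ∈ C := hle (qneg h a)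
      exact (C.mul_mem_cancel_right ha).1 h1
    have hcC : Nat.card C ≤ 8 * M := by
      have : (C : Set S.G).ncard = Nat.card C := rfl
      rw [← this, ← hXC]
      exact hX
    have h1 : Nat.card (D h c ⊓ D h d : Subgroup S.G) ≤ 2 * Nat.card C := by
      have e1 : Nat.card (D h c ⊓ D h d : Subgroup S.G)
        = ((D h c ⊓ D h d : Subgroup S.G) : Set S.G).ncard := rfl
      rw [e1]
      have h2 : ((D h c ⊓ D h d : Subgroup S.G) : Set S.G) ⊆ (C : Set S.G) ∪
          (fun a => S.neg * a) '' (C : Set S.G) := by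
        intro a ha
        rcases hsub a ha with h3 | h3
        · exact Or.inl h3
        · exact Or.inr ⟨S.neg * a, h3, sq_mul h _ _⟩
      refine (Set.ncard_le_ncard h2 (Set.toFinite _)).trans ?_
      refine (Set.ncard_union_le _ _).trans ?_
      have h3 := Set.ncard_image_le (f := fun a => S.neg * a) (Set.toFinite (C : Set S.G))
      have h4 : (C : Set S.G).ncard = Nat.card C := rfl
      omega
    omega
  have hle : D h c ⊓ D h d ≤ C := by
    intro a ha
    rcases hsub a ha with h1 | h1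
    · exact h1
    · exact (C.mul_mem_cancel_left hneg).1 h1
  have hcC : 8 * M < Nat.card C := by
    have := Subgroup.card_le_of_le hle
    omega
  obtain ⟨v, hv, hvX⟩ := exists_gen C (X h C) (by omega)
  have hvC : D h v ≤ C := by
    by_contra hcon
    exact hvX ⟨hv, hcon⟩
  refine ⟨C, ⟨H0, hneg, ?_⟩⟩
  refine le_trans ?_ ((hC v).1 hv)
  exact Nat.le_of_dvd (Nat.pos_of_ne_zero Subgroup.index_ne_zero_of_finite)
    (Subgroup.index_dvd_of_le hvC)

/-- the general reduction -/
theorem reduction {C : Subgroup S.G} (H : Ctx h C M) :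
    ∃ (hT : IsQuat (sub S C H.neg)) (x : C),
      (∀ v : C, v ≠ x → v ≠ 1 → 2 * (D hT v).index ≤ (D h v.1).index) ∧
      ((∀ K : Subgroup (sub S C H.neg).G, K ≠ ⊤ → Step (sub S C H.neg) K) → Elem S) := by
  obtain ⟨x, hx, P1, P4⟩ := exists_x H
  refine ⟨sub_quat h H.neg x P1, ⟨x, hx⟩, fun v hv hv1' => ?_, fun P3 => ?_⟩
  · have hC2 : 2 ≤ C.index := by
      have h1 : C.index ≠ 0 := Subgroup.index_ne_zero_of_finite
      have h2 : C.index ≠ 1 := fun e => H.ne (Subgroup.index_eq_one.1 e)
      omega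
    have hv1 : v.1 ≠ 1 := fun e => hv1' (Subtype.ext e)
    have hle : D h v.1 ≤ C := by
      intro y hy
      by_contra hyC
      rcases P1 y hyC v.1 v.2 hy with e | e
      · exact hv1 e
      · exact hv (Subtype.ext e)
    have e1 : (D (sub_quat h H.neg x P1) v) = (D h v.1).subgroupOf C := by
      ext y
      exact Iff.rfl
    have e2 : (D (sub_quat h H.neg x P1) v).index = (D h v.1).relIndex C := by
      rw [e1]
      rfl
    have e3 := Subgroup.relIndex_mul_index hle
    rw [e2]
    calc 2 * (D h v.1).relIndex C = (D h v.1).relIndex C * 2 := mul_comm _ _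
      _ ≤ (D h v.1).relIndex C * C.index := Nat.mul_le_mul_left _ hC2
      _ = (D h v.1).index := e3
  · have hstep := step_of_sub h H.neg x hx P1 (fun e a he ha haC => lemA H he ha haC) P4 P3
    exact elem_of_step h fun K hK _ => stepTwo_of_step (hstep K hK)

lemma D_one : D h (1 : S.G) = ⊤ := le_antisymm le_top fun x _ => one_q h x

/-- few elements of `C` have value groups of large index in `C` -/
theorem few {C : Subgroup S.G} (H : Ctx h C M) (hT : IsQuat (sub S C H.neg)) (x : C)
    (h1 : ∀ v : C, v ≠ x → v ≠ 1 → 2 * (D hT v).index ≤ (D h v.1).index) (m : ℕ) (hm : 1 ≤ m) :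
    {v : (sub S C H.neg).G | m < (D hT v).index}.ncard ≤
      {a : S.G | 2 * m < (D h a).index ∧ (D h a).index ≤ M}.ncard + 1 := by
  have hfin : Finite (sub S C H.neg).G := inferInstanceAs (Finite C)
  have key : {v : C | m < (D hT v).index}.ncard ≤
      {a : S.G | 2 * m < (D h a).index ∧ (D h a).index ≤ M}.ncard + 1 := by
    have hsub : {v : C | m < (D hT v).index} ⊆
        {v : C | 2 * m < (D h v.1).index ∧ (D h v.1).index ≤ M} ∪ {x} := by
      intro v hv
      have hv' : m < (D hT v).index := hv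
      by_cases hvx : v = x
      · exact Or.inr hvx
      · by_cases hv1 : v = (1 : C)
        · exfalso
          have e : D hT v = ⊤ := by
            rw [hv1]
            exact D_one hT
          rw [e, Subgroup.index_top] at hv'
          omega
        · left
          have := h1 v hvx hv1
          exact ⟨by omega, (H.mem v.1).1 v.2⟩
    refine (Set.ncard_le_ncard hsub (Set.toFinite _)).trans ?_
    refine (Set.ncard_union_le _ _).trans ?_
    rw [Set.ncard_singleton]
    refine Nat.add_le_add_right ?_ 1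
    exact Set.ncard_le_ncard_of_injOn (fun v : C => v.1) (fun v hv => hv)
      (fun a _ b _ e => Subtype.ext e) (Set.toFinite _)
  exact key

/-- the number of elements of `C` -/
lemma cardC_eq {C : Subgroup S.G} (H : Ctx h C M) :
    Nat.card (sub S C H.neg).G = {a : S.G | (D h a).index ≤ M}.ncard := by
  have e1 : Nat.card (sub S C H.neg).G = (C : Set S.G).ncard := rfl
  rw [e1]
  congr 1
  ext a
  exact H.mem a

/-- **general version** -/
theorem elem_gen (hM : 2 ≤ M) (hG : 16 * M ^ 5 < Nat.card S.G)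
    (hd : ∀ a : S.G, Nat.card (D h a) ≤ 4 ∨ (D h a).index ≤ M)
    (hex : ∃ a : S.G, M < (D h a).index)
    (hfew : 64 * ({a : S.G | 8 < (D h a).index ∧ (D h a).index ≤ M}.ncard + 1) <
      {a : S.G | (D h a).index ≤ M}.ncard) : Elem S := by
  rcases elem_or_ctx h hM hG hd hex with hE | ⟨C, H⟩
  · exact hE
  obtain ⟨hT, x, h1, h2⟩ := reduction h H
  have hfin : Finite (sub S C H.neg).G := inferInstanceAs (Finite C)
  refine h2 (stepAll_of_elem hT ?_)
  refine Pool.Agent.HP778.QS.elem_of_almost hT ⊤ (by rw [Subgroup.index_top]; norm_num) ?_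
  have h3 : (Pool.Agent.HP778.QS.exc hT ⊤).ncard ≤
      {a : S.G | 8 < (D h a).index ∧ (D h a).index ≤ M}.ncard + 1 := by
    refine le_trans (Set.ncard_le_ncard ?_ (Set.toFinite _)) (few h H hT x h1 4 (by norm_num))
    rintro v ⟨-, -, h4⟩
    rw [inf_top_eq] at h4
    exact h4
  rw [cardC_eq h H]
  exact lt_of_le_of_lt (Nat.mul_le_mul_left _ h3) hfew

/-- **order at most four or index at most eight** -/
theorem elem_eight (hG : 2 ^ 20 ≤ Nat.card S.G)
    (hd : ∀ a : S.G, Nat.card (D h a) ≤ 4 ∨ (D h a).index ≤ 8)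
    (hex : ∃ a : S.G, 8 < (D h a).index) : Elem S := by
  rcases elem_or_ctx h (M := 8) (by norm_num) (by norm_num at hG ⊢; omega) hd hex with hE | ⟨C, H⟩
  · exact hE
  refine elem_gen h (M := 8) (by norm_num) (by norm_num at hG ⊢; omega) hd hex ?_
  have h3 : {a : S.G | 8 < (D h a).index ∧ (D h a).index ≤ 8} = ∅ := by
    rw [Set.eq_empty_iff_forall_notMem]
    rintro a ⟨h4, h5⟩
    omega
  have h4 : 64 * 8 ^ 2 < Nat.card C := H.cardC
  have h5 : Nat.card (sub S C H.neg).G = Nat.card C := rfl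
  rw [h3, Set.ncard_empty, ← cardC_eq h H, h5]
  omega

/-- **reduction to smaller structures** -/
theorem elem_of_smaller (hM : 2 ≤ M) (hG : 16 * M ^ 5 < Nat.card S.G)
    (hd : ∀ a : S.G, Nat.card (D h a) ≤ 4 ∨ (D h a).index ≤ M)
    (hex : ∃ a : S.G, M < (D h a).index)
    (hsm : ∀ (T : QData) (hT : IsQuat T), Finite T.G → 2 * Nat.card T.G ≤ Nat.card S.G →
      (∃ x : T.G, ∀ v : T.G, v ≠ x → 2 * (D hT v).index ≤ M) → Elem T) : Elem S := by
  rcases elem_or_ctx h hM hG hd hex with hE | ⟨C, H⟩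
  · exact hE
  obtain ⟨hT, x, h1, h2⟩ := reduction h H
  have hfin : Finite (sub S C H.neg).G := inferInstanceAs (Finite C)
  refine h2 (stepAll_of_elem hT (hsm _ hT hfin ?_ ⟨x, fun v hv => ?_⟩))
  · have e1 : Nat.card (sub S C H.neg).G = Nat.card C := rfl
    rw [e1, ← C.card_mul_index, mul_comm 2]
    refine Nat.mul_le_mul_left _ ?_
    have h3 : C.index ≠ 0 := Subgroup.index_ne_zero_of_finite
    have h4 : C.index ≠ 1 := fun e => H.ne (Subgroup.index_eq_one.1 e)
    omega
  · by_cases hv1 : v = (1 : C)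
    · have e : D hT v = ⊤ := by
        rw [hv1]
        exact D_one hT
      rw [e, Subgroup.index_top]
      omega
    · exact (h1 v hv hv1).trans ((H.mem _).1 (Subtype.mem v))

end Pool.Agent.H923.ET
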