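import Mathlib
import Pool.Agent.H923.ET.Main
import Pool.Graph.R_pool_sql_team_seeded_5cf16337.K3h25.ET2.Main

/-! Quaternionic structures whose value groups have order at most four or index at most sixteen:
the case of additive structures. -/

set_option autoImplicit false
set_option linter.unusedSimpArgs false
set_option linter.unusedSectionVars false

namespace Pool.Agent.H923.ET

open Pool.Agent.H315R3.ETC Pool.Agent.TH673.VG

universe v

variable {S : QData} (h : IsQuat S) {M : ℕ} [Finite S.G]

/-- **additive structures, general version** -/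
theorem add_gen {B : Type v} [AddCommGroup B] (hB : ∀ b : B, b + b = 0) (β : S.G → S.G → B)
    (hmul : ∀ a b c, β a (b * c) = β a b + β a c)
    (hiff : ∀ a b c d, β a b = β c d ↔ S.q a b = S.q c d)
    (hM : 2 ≤ M) (hG : 16 * M ^ 5 < Nat.card S.G)
    (hd : ∀ a : S.G, Nat.card (D h a) ≤ 4 ∨ (D h a).index ≤ M)
    (hex : ∃ a : S.G, M < (D h a).index)
    (hfew : 8 * ({a : S.G | 16 < (D h a).index ∧ (D h a).index ≤ M}.ncard + 1) <
        3 * {a : S.G | (D h a).index ≤ M}.ncard ∨
      8 * ({a : S.G | 8 < (D h a).index ∧ (D h a).index ≤ M}.ncard + 1) <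
        5 * {a : S.G | (D h a).index ≤ M}.ncard) : Elem S := by
  rcases elem_or_ctx h hM hG hd hex with hE | ⟨C, H⟩
  · exact hE
  obtain ⟨hT, x, h1, h2⟩ := reduction h H
  have hfin : Finite (sub S C H.neg).G := inferInstanceAs (Finite C)
  have k8 := few h H hT x h1 8 (by norm_num)
  have k4 := few h H hT x h1 4 (by norm_num)
  refine h2 (stepAll_of_elem hT ?_)
  refine Pool.Agent.K3h25.ET2.elem_of_few _ hT hfin hB (fun a b : C => β a.1 b.1)
    (fun a b c => hmul a.1 b.1 c.1) (fun a b c d => hiff a.1 b.1 c.1 d.1) ?_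
  rw [cardC_eq h H]
  norm_num at k8 k4 hfew
  rcases hfew with hf | hf
  · left
    omega
  · right
    omega

/-- **additive structures, order at most four or index at most eight** -/
theorem add_eight {B : Type v} [AddCommGroup B] (hB : ∀ b : B, b + b = 0) (β : S.G → S.G → B)
    (hmul : ∀ a b c, β a (b * c) = β a b + β a c)
    (hiff : ∀ a b c d, β a b = β c d ↔ S.q a b = S.q c d)
    (hG : 2 ^ 20 ≤ Nat.card S.G)
    (hd : ∀ a : S.G, Nat.card (D h a) ≤ 4 ∨ (D h a).index ≤ 8) : Elem S := by
  by_cases hex : ∃ a : S.G, 8 < (D h a).index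
  · exact elem_eight h hG hd hex
  · push Not at hex
    refine Pool.Agent.K3h25.ET2.elem_of_few _ h inferInstance hB β hmul hiff (Or.inl ?_)
    have : {a : S.G | 8 < (D h a).index} = ∅ := by
      rw [Set.eq_empty_iff_forall_notMem]
      intro a ha
      have h1 : 8 < (D h a).index := ha
      have h2 := hex a
      omega
    rw [this, Set.ncard_empty]
    omega

/-- **additive structures, order at most four or index at most sixteen** -/
theorem add_sixteen {B : Type v} [AddCommGroup B] (hB : ∀ b : B, b + b = 0)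
    (β : S.G → S.G → B) (hmul : ∀ a b c, β a (b * c) = β a b + β a c)
    (hiff : ∀ a b c d, β a b = β c d ↔ S.q a b = S.q c d)
    (hG : 2 ^ 25 ≤ Nat.card S.G)
    (hd : ∀ a : S.G, Nat.card (D h a) ≤ 4 ∨ (D h a).index ≤ 16)
    (hex : ∃ a : S.G, 16 < (D h a).index) : Elem S := by
  rcases elem_or_ctx h (M := 16) (by norm_num) (by norm_num at hG ⊢; omega) hd hex
    with hE | ⟨C, H⟩
  · exact hE
  refine add_gen h hB β hmul hiff (M := 16) (by norm_num) (by norm_num at hG ⊢; omega) hd hex
    (Or.inl ?_)
  have h3 : {a : S.G | 16 < (D h a).index ∧ (D h a).index ≤ 16} = ∅ := by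
    rw [Set.eq_empty_iff_forall_notMem]
    rintro a ⟨h4, h5⟩
    omega
  have h4 : 64 * 16 ^ 2 < Nat.card C := H.cardC
  have h5 : Nat.card (sub S C H.neg).G = Nat.card C := rfl
  rw [h3, Set.ncard_empty, ← cardC_eq h H, h5]
  omega

end Pool.Agent.H923.ET
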